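import Pool.Agent.U737.MN.Stm
import Pool.Agent.TH365.J3099

/-!
Project MN, package WrIff: description of the extensions with group `C₂ ≀ H`, `H` acting transitively
and faithfully on a set `X` (generalisation of `Pool.Agent.TH365.J3099`, the case `X = H`).
-/

set_option autoImplicit false

open Pool.Agent.U737.MN IntermediateField
open Pool.Agent.TH365.J3099 (act act_apply act_apply_apply ker_act imP imP_eq ncard_imP)

namespace Pool.Agent.U810.MN

/-! ### the wreath product -/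

section wr

variable {H X : Type} [Group H] [MulAction H X]

/-- the permutation `(x, b) ↦ (h x, f x b)` -/
def wrF (p : H × (X → Equiv.Perm Bool)) : Equiv.Perm (X × Bool) where
  toFun x := (p.1 • x.1, p.2 x.1 x.2)
  invFun y := (p.1⁻¹ • y.1, (p.2 (p.1⁻¹ • y.1)).symm y.2)
  left_inv x := by simp
  right_inv y := by simp

theorem wrF_injective [FaithfulSMul H X] :
    Function.Injective (wrF (H := H) (X := X)) := by
  rintro ⟨h, f⟩ ⟨h', f'⟩ e
  have e1 : ∀ x : X × Bool, wrF (h, f) x = wrF (h', f') x := fun x => by rw [e]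
  have h1 : h = h' := by
    apply FaithfulSMul.eq_of_smul_eq_smul (α := X)
    intro x
    have := congrArg Prod.fst (e1 (x, true))
    simpa [wrF] using this
  subst h1
  have h2 : f = f' := by
    funext x
    ext b
    have := congrArg Prod.snd (e1 (x, b))
    simpa [wrF] using this
  rw [h2]

theorem range_wrF : Set.range (wrF (H := H) (X := X)) = Wr2 H X := by
  ext π
  constructor
  · rintro ⟨⟨h, f⟩, rfl⟩
    exact ⟨h, fun x => rfl⟩
  · rintro ⟨h, hh⟩
    have inj : ∀ x : X, Function.Injective (fun b : Bool => (π (x, b)).2) := by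
      intro x b b' hb
      have : π (x, b) = π (x, b') := by
        apply Prod.ext
        · rw [hh, hh]
        · exact hb
      have := π.injective this
      exact congrArg Prod.snd this
    refine ⟨(h, fun x => Equiv.ofBijective _ (Finite.injective_iff_bijective.1 (inj x))), ?_⟩
    ext1 x
    apply Prod.ext
    · simp [wrF, hh]
    · simp [wrF]

theorem ncard_Wr2 [Finite H] [Finite X] [FaithfulSMul H X] :
    (Wr2 H X).ncard = 2 ^ Nat.card X * Nat.card H := by
  classical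
  have : Fintype X := Fintype.ofFinite X
  rw [← range_wrF, ← Set.image_univ, Set.ncard_image_of_injective _ wrF_injective,
    Set.ncard_univ, Nat.card_prod, Nat.card_fun, mul_comm]
  congr 2
  rw [Nat.card_eq_fintype_card, Fintype.card_perm]
  simp

/-- the permutations given by `H` -/
def PH (H X : Type) [Group H] [MulAction H X] : Set (Equiv.Perm X) :=
  {π | ∃ h : H, ∀ x, π x = h • x}

theorem ncard_PH [FaithfulSMul H X] : (PH H X).ncard = Nat.card H := by
  have h1 : PH H X = (MulAction.toPerm : H → Equiv.Perm X) '' Set.univ := by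
    ext π
    constructor
    · rintro ⟨h, hh⟩
      refine ⟨h, trivial, ?_⟩
      ext x
      rw [MulAction.toPerm_apply, hh]
    · rintro ⟨h, -, rfl⟩
      exact ⟨h, fun x => rfl⟩
  rw [h1, Set.ncard_image_of_injective _ MulAction.toPerm_injective, Set.ncard_univ]

end wr

section main

variable {K Ω : Type} [Field K] [CharZero K] [Field Ω] [Algebra K Ω] [IsAlgClosure K Ω]
variable {H X : Type} [Group H] [Finite H] [MulAction H X] [Finite X]

omit [Finite H] [Finite X] in
theorem card_emb (L : IntermediateField K Ω) [FiniteDimensional K L] :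
    Nat.card (L →ₐ[K] Ω) = Module.finrank K L := by
  have i1 : IsAlgClosed Ω := IsAlgClosure.isAlgClosed K
  have i3 : Algebra.IsAlgebraic K Ω := IsAlgClosure.isAlgebraic
  have hfin : Finite (L →ₐ[K] Ω) := inferInstance
  rw [← AlgHom.card K L Ω, Nat.card_eq_fintype_card]

omit [Finite H] [Finite X] in
theorem gal_facts [FaithfulSMul H X] (M : IntermediateField K Ω) [FiniteDimensional K M]
    (e : (M →ₐ[K] Ω) ≃ X)
    (he : ∀ π : Equiv.Perm X, (∃ h : H, ∀ x, π x = h • x) ↔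
      ∃ σ : Ω ≃ₐ[K] Ω, ∀ φ : M →ₐ[K] Ω, e (σ.toAlgHom.comp φ) = π (e φ)) :
    Module.finrank K M = Nat.card X ∧ nc M = Nat.card H := by
  have i1 : IsAlgClosed Ω := IsAlgClosure.isAlgClosed K
  have i2 : Normal K Ω := IsAlgClosure.normal K Ω
  have i3 : Algebra.IsAlgebraic K Ω := IsAlgClosure.isAlgebraic
  have i4 : Algebra.IsSeparable K Ω := inferInstance
  constructor
  · rw [← card_emb M]
    exact Nat.card_congr e
  · have h1 : imP M e = PH H X := by
      ext π
      exact (he π).symm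
    unfold nc
    rw [← ncard_imP M e, h1, ncard_PH]

theorem forward [Nonempty X] [MulAction.IsPretransitive H X] [FaithfulSMul H X]
    (L : IntermediateField K Ω) (hL : Module.finrank K L = 2 * Nat.card X)
    (hw : IsWr K Ω H X L) : ∃ M, Mid K Ω H X L M := by
  obtain ⟨e, he⟩ := hw
  have hpos : 0 < Nat.card X := Nat.card_pos
  have hfd : FiniteDimensional K L := FiniteDimensional.of_finrank_pos (by omega)
  have i1 : IsAlgClosed Ω := IsAlgClosure.isAlgClosed K
  have i2 : Normal K Ω := IsAlgClosure.normal K Ω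
  have i3 : Algebra.IsAlgebraic K Ω := IsAlgClosure.isAlgebraic
  have i4 : Algebra.IsSeparable K Ω := inferInstance
  have i5 : IsGalois K Ω := ⟨⟩
  let P : (Ω ≃ₐ[K] Ω) →* Equiv.Perm (X × Bool) := e.permCongrHom.toMonoidHom.comp (act L)
  have hP : ∀ (σ : Ω ≃ₐ[K] Ω) (φ : L →ₐ[K] Ω), e (act L σ φ) = P σ (e φ) := by
    intro σ φ
    change _ = e (act L σ (e.symm (e φ)))
    rw [Equiv.symm_apply_apply]
  have hPW : ∀ σ, ∃ h : H, ∀ x : X × Bool, (P σ x).1 = h • x.1 :=
    fun σ => (he _).2 ⟨σ, fun φ => hP σ φ⟩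
  choose h0 hh0 using hPW
  let h : (Ω ≃ₐ[K] Ω) →* H :=
    { toFun := h0
      map_one' := by
        apply FaithfulSMul.eq_of_smul_eq_smul (α := X)
        intro x
        rw [← hh0 1 (x, true)]
        simp
      map_mul' := fun σ τ => by
        apply FaithfulSMul.eq_of_smul_eq_smul (α := X)
        intro x
        rw [← hh0 (σ * τ) (x, true), map_mul, Equiv.Perm.mul_apply, hh0 σ, hh0 τ, mul_smul] }
  have hh : ∀ σ (x : X × Bool), (P σ x).1 = h σ • x.1 := hh0
  have hs : Function.Surjective h := by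
    intro a
    obtain ⟨σ, hσ⟩ := (he (wrF (a, 1))).1 ⟨a, fun x => rfl⟩
    refine ⟨σ, ?_⟩
    apply FaithfulSMul.eq_of_smul_eq_smul (α := X)
    intro x
    have h1 := hσ (e.symm (x, true))
    rw [← act_apply, hP, Equiv.apply_symm_apply] at h1
    have h2 := hh σ (x, true)
    rw [h1] at h2
    exact h2.symm
  obtain ⟨x₀, hx₀⟩ : ∃ x₀, x₀ = (e L.val).1 := ⟨_, rfl⟩
  let S : Subgroup (Ω ≃ₐ[K] Ω) := (MulAction.stabilizer H x₀).comap h
  have hS : ∀ σ, σ ∈ S ↔ h σ • x₀ = x₀ := fun σ => Iff.rfl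
  have hker : L.fixingSubgroup ≤ S := by
    intro σ hσ
    rw [hS]
    have h1 : act L σ L.val = L.val := by
      ext x
      rw [act_apply_apply]
      rw [IntermediateField.mem_fixingSubgroup_iff] at hσ
      exact hσ _ x.2
    have h2 := hP σ L.val
    rw [h1] at h2
    have h3 := hh σ (e L.val)
    rw [← h2, ← hx₀] at h3
    exact h3.symm
  have hopen : IsOpen (S : Set (Ω ≃ₐ[K] Ω)) :=
    Subgroup.isOpen_mono hker L.fixingSubgroup_isOpen
  have hclosed : IsClosed (S : Set (Ω ≃ₐ[K] Ω)) := Subgroup.isClosed_of_isOpen _ hopen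
  obtain ⟨M, hMdef⟩ : ∃ M, M = fixedField S := ⟨_, rfl⟩
  have hM : M.fixingSubgroup = S := by
    rw [hMdef]
    exact InfiniteGalois.fixingSubgroup_fixedField ⟨S, hclosed⟩
  have hML : M ≤ L := by
    rw [← InfiniteGalois.fixedField_fixingSubgroup L, hMdef]
    intro x hx
    rw [mem_fixedField_iff] at hx ⊢
    exact fun σ hσ => hx σ (hker hσ)
  have hMfd : FiniteDimensional K M := by
    rw [← InfiniteGalois.isOpen_iff_finite, hM]
    exact hopen
  -- every embedding of `M` is a restriction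
  have hext : ∀ φ : M →ₐ[K] Ω, ∃ σ : Ω ≃ₐ[K] Ω, act M σ M.val = φ := by
    intro φ
    let f : Ω →ₐ[K] Ω := φ.liftNormal Ω
    have hf : Function.Bijective f := Algebra.IsAlgebraic.algHom_bijective f
    refine ⟨AlgEquiv.ofBijective f hf, ?_⟩
    ext x
    rw [act_apply_apply]
    exact AlgHom.liftNormal_commutes φ Ω x
  choose s hsφ using hext
  have key : ∀ σ τ : Ω ≃ₐ[K] Ω, act M σ M.val = act M τ M.val ↔ h σ • x₀ = h τ • x₀ := by
    intro σ τ
    have h1 : act M σ M.val = act M τ M.val ↔ τ⁻¹ * σ ∈ M.fixingSubgroup := by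
      rw [IntermediateField.mem_fixingSubgroup_iff]
      constructor
      · intro h2 x hx
        have h3 := congrArg (fun φ : M →ₐ[K] Ω => φ ⟨x, hx⟩) h2
        simp only [act_apply_apply] at h3
        have h4 : σ x = τ x := h3
        rw [AlgEquiv.mul_apply, h4]
        exact AlgEquiv.symm_apply_apply τ x
      · intro h2
        ext x
        rw [act_apply_apply, act_apply_apply]
        have h3 := h2 x x.2
        rw [AlgEquiv.mul_apply] at h3
        have h4 := congrArg τ h3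
        have h5 : τ (τ⁻¹ (σ (x : Ω))) = σ x := AlgEquiv.apply_symm_apply τ _
        rw [h5] at h4
        exact h4
    rw [h1, hM, hS, map_mul, map_inv, mul_smul, inv_smul_eq_iff]
  let θ : (M →ₐ[K] Ω) → X := fun φ => h (s φ) • x₀
  have hθ : ∀ σ, θ (act M σ M.val) = h σ • x₀ := fun σ => (key _ _).1 (hsφ _)
  have hθinj : Function.Injective θ := by
    intro φ ψ hφψ
    rw [← hsφ φ, ← hsφ ψ]
    exact (key _ _).2 hφψ
  have hθsurj : Function.Surjective θ := by
    intro x
    obtain ⟨a, ha⟩ := MulAction.exists_smul_eq H x₀ x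
    obtain ⟨σ, rfl⟩ := hs a
    exact ⟨act M σ M.val, by rw [hθ, ha]⟩
  let e' : (M →ₐ[K] Ω) ≃ X := Equiv.ofBijective θ ⟨hθinj, hθsurj⟩
  have he'0 : ∀ (σ : Ω ≃ₐ[K] Ω) (φ : M →ₐ[K] Ω), e' (σ.toAlgHom.comp φ) = h σ • e' φ := by
    intro σ φ
    change θ (act M σ φ) = h σ • θ φ
    rw [← hsφ φ, ← Equiv.Perm.mul_apply, ← map_mul, hθ, hθ, map_mul, mul_smul]
  have he' : ∀ π : Equiv.Perm X, (∃ h : H, ∀ x, π x = h • x) ↔
      ∃ σ : Ω ≃ₐ[K] Ω, ∀ φ : M →ₐ[K] Ω, e' (σ.toAlgHom.comp φ) = π (e' φ) := by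
    intro π
    constructor
    · rintro ⟨a, ha⟩
      obtain ⟨σ, rfl⟩ := hs a
      exact ⟨σ, fun φ => by rw [he'0, ha]⟩
    · rintro ⟨σ, hσ⟩
      refine ⟨h σ, fun x => ?_⟩
      obtain ⟨φ, rfl⟩ := e'.surjective x
      rw [← hσ, he'0]
  obtain ⟨hfr, hnc⟩ := gal_facts M e' he'
  refine ⟨M, ⟨hMfd, e', he'⟩, hML, hfd, by rw [hL, hfr], ?_⟩
  have h1 : imP L e = Wr2 H X := by
    ext π
    exact (he π).symm
  rw [hnc, hfr]
  unfold nc
  rw [← ncard_imP L e, h1, ncard_Wr2]

theorem backward [Nonempty X] [MulAction.IsPretransitive H X] [FaithfulSMul H X]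
    (L M : IntermediateField K Ω) (h : Mid K Ω H X L M) :
    Module.finrank K L = 2 * Nat.card X ∧ IsWr K Ω H X L := by
  obtain ⟨⟨hMfd, eM, heM⟩, hML, hLfd, hLM, hN⟩ := h
  have i1 : IsAlgClosed Ω := IsAlgClosure.isAlgClosed K
  have i2 : Normal K Ω := IsAlgClosure.normal K Ω
  have i3 : Algebra.IsAlgebraic K Ω := IsAlgClosure.isAlgebraic
  have i4 : Algebra.IsSeparable K Ω := inferInstance
  have i5 : IsGalois K Ω := ⟨⟩
  obtain ⟨hMX, hMH⟩ := gal_facts M eM heM
  refine ⟨by rw [hLM, hMX], ?_⟩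
  let i : M →ₐ[K] L := IntermediateField.inclusion hML
  let ρ : (Ω ≃ₐ[K] Ω) →* Equiv.Perm X := eM.permCongrHom.toMonoidHom.comp (act M)
  have hρ : ∀ (σ : Ω ≃ₐ[K] Ω) (ψ : M →ₐ[K] Ω), eM (act M σ ψ) = ρ σ (eM ψ) := by
    intro σ ψ
    change _ = eM (act M σ (eM.symm (eM ψ)))
    rw [Equiv.symm_apply_apply]
  have hρH : ∀ σ, ∃ a : H, ∀ x, ρ σ x = a • x := fun σ => (heM _).2 ⟨σ, fun ψ => hρ σ ψ⟩
  obtain ⟨x₀⟩ := (inferInstance : Nonempty X)
  have hρs : ∀ x : X, ∃ σ, ρ σ x₀ = x := by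
    intro x
    obtain ⟨a, ha⟩ := MulAction.exists_smul_eq H x₀ x
    obtain ⟨σ, hσ⟩ := (heM (MulAction.toPerm a)).1 ⟨a, fun x => rfl⟩
    refine ⟨σ, ?_⟩
    obtain ⟨ψ, rfl⟩ := eM.surjective x₀
    rw [← hρ, act_apply, hσ, MulAction.toPerm_apply, ha]
  let r : (L →ₐ[K] Ω) → X := fun φ => eM (φ.comp i)
  have hr : ∀ (σ : Ω ≃ₐ[K] Ω) (φ : L →ₐ[K] Ω), r (act L σ φ) = ρ σ (r φ) := by
    intro σ φ
    change eM ((act L σ φ).comp i) = ρ σ (eM (φ.comp i))
    rw [← hρ]
    rfl
  choose s hsr using hρs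
  let F : (L →ₐ[K] Ω) ≃ X × {φ : L →ₐ[K] Ω // r φ = x₀} :=
    { toFun := fun φ => (r φ, ⟨act L (s (r φ))⁻¹ φ, by
        rw [hr, map_inv, Equiv.Perm.inv_eq_iff_eq, hsr]⟩)
      invFun := fun p => act L (s p.1) p.2.1
      left_inv := fun φ => by
        change act L (s (r φ)) (act L (s (r φ))⁻¹ φ) = φ
        rw [← Equiv.Perm.mul_apply, ← map_mul, mul_inv_cancel, map_one, Equiv.Perm.one_apply]
      right_inv := fun p => by
        obtain ⟨a, φ, hφ⟩ := p
        have h1 : r (act L (s a) φ) = a := by rw [hr, hφ, hsr]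
        apply Prod.ext
        · exact h1
        · apply Subtype.ext
          change act L (s (r (act L (s a) φ)))⁻¹ (act L (s a) φ) = φ
          rw [h1, ← Equiv.Perm.mul_apply, ← map_mul, inv_mul_cancel, map_one,
            Equiv.Perm.one_apply] }
  have hfin : Finite (L →ₐ[K] Ω) := inferInstance
  have hcX : Nat.card (L →ₐ[K] Ω) = Module.finrank K L := card_emb L
  have hXpos : 0 < Nat.card X := Nat.card_pos
  have hc2 : Nat.card {φ : L →ₐ[K] Ω // r φ = x₀} = Nat.card Bool := by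
    have h1 := Nat.card_congr F
    rw [Nat.card_prod, hcX, hLM, hMX, mul_comm] at h1
    have h2 := Nat.eq_of_mul_eq_mul_left hXpos h1
    rw [← h2]
    simp
  let β : {φ : L →ₐ[K] Ω // r φ = x₀} ≃ Bool := (Finite.card_eq.1 hc2).some
  let e : (L →ₐ[K] Ω) ≃ X × Bool := F.trans (Equiv.prodCongr (Equiv.refl X) β)
  have he1 : ∀ φ, (e φ).1 = r φ := fun φ => rfl
  have hsub : imP L e ⊆ Wr2 H X := by
    rintro π ⟨σ, hσ⟩
    obtain ⟨a, ha⟩ := hρH σ
    refine ⟨a, fun x => ?_⟩
    obtain ⟨φ, rfl⟩ := e.surjective x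
    rw [← hσ φ, ← act_apply, he1, he1, hr, ha]
  have heq : imP L e = Wr2 H X := by
    apply Set.eq_of_subset_of_ncard_le hsub
    rw [ncard_imP L e, ncard_Wr2]
    change _ ≤ nc L
    rw [hN, hMX, hMH]
  refine ⟨e, fun π => ?_⟩
  rw [← heq]
  rfl

end main

/-- extensions with group `C₂ ≀ H` -/
theorem t_WrIff : Pool.Agent.U737.MN.WrIff := by
  intro K Ω _ _ _ _ _ H X _ _ _ _ _ _ _ L
  constructor
  · rintro ⟨h1, h2⟩
    exact forward L h1 h2
  · rintro ⟨M, hM⟩
    exact backward L M hM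

end Pool.Agent.U810.MN
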